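import Mathlib
import Pool.Agent.Lib.MP_04fdae_co.Count

/-!
MP_04fdae_co: Kalai's bound, asymptotically, for families of triangulations that intersect inside
an arc of `m = o(n)` consecutive vertices.
-/

namespace Pool.Agent.Results.MP_04fdae_co.Arc

open Pool.Agent.Lib.MP_04fdae_co

theorem result (n m : ℕ) (hn : 4 ≤ n) (hm : 3 ≤ m) (hmn : m < n) (w : Fin n)
    (F : Finset (Finset (Fin n × Fin n))) (hF : ∀ T ∈ F, IsTriangulation T)
    (hint : ∀ T₁ ∈ F, ∀ T₂ ∈ F, ∃ p ∈ T₁ ∩ T₂, InArc w m p.1 ∧ InArc w m p.2) :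
    (F.card : ℝ) ≤ (((n : ℝ) - 2) / ((n : ℝ) - m)) ^ (3 / 2 : ℝ) * catalan (n - 3) := by
  have h := main_sq (by omega) (by omega) hmn w F hF hint
  have h1 : (F.card : ℝ) ^ 2 * ((n : ℝ) - m) ^ 3 ≤
      ((n : ℝ) - 2) ^ 3 * (catalan (n - 3) : ℝ) ^ 2 := by
    have h2 : ((F.card ^ 2 * (n - m) ^ 3 : ℕ) : ℝ) ≤
        (((n - 2) ^ 3 * catalan (n - 3) ^ 2 : ℕ) : ℝ) := by exact_mod_cast h
    push_cast [Nat.cast_sub hmn.le, Nat.cast_sub (show 2 ≤ n by omega)] at h2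
    exact h2
  have hy : (0 : ℝ) < (n : ℝ) - m := by
    have : (m : ℝ) < n := by exact_mod_cast hmn
    linarith
  have hx : (0 : ℝ) ≤ ((n : ℝ) - 2) / ((n : ℝ) - m) := by
    have : (4 : ℝ) ≤ n := by exact_mod_cast hn
    exact div_nonneg (by linarith) hy.le
  refine (pow_le_pow_iff_left₀ (by positivity) (by positivity) two_ne_zero).mp ?_
  rw [mul_pow, ← Real.rpow_natCast (_ ^ (3 / 2 : ℝ)), ← Real.rpow_mul hx]
  rw [show (3 / 2 : ℝ) * ((2 : ℕ) : ℝ) = ((3 : ℕ) : ℝ) by norm_num, Real.rpow_natCast, div_pow,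
    div_mul_eq_mul_div, le_div_iff₀ (by positivity)]
  exact h1

end Pool.Agent.Results.MP_04fdae_co.Arc
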