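import Mathlib
import Pool.Agent.Lib.MP_04fdae_co.G.Main

/-!
MP_04fdae_co: Kalai's bound holds asymptotically for all intersecting families of triangulations
of a convex polygon.
-/

namespace Pool.Agent.Results.MP_04fdae_co.Global

open Pool.Agent.Lib.MP_04fdae_co

theorem result (ε : ℝ) (hε : 0 < ε) : ∃ n₀ : ℕ, ∀ n : ℕ, n₀ ≤ n →
    ∀ F : Finset (Finset (Fin n × Fin n)), (∀ T ∈ F, IsTriangulation T) →
      (∀ T₁ ∈ F, ∀ T₂ ∈ F, (T₁ ∩ T₂).Nonempty) →
      (F.card : ℝ) ≤ (1 + ε) * catalan (n - 3) :=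
  G.main ε hε

end Pool.Agent.Results.MP_04fdae_co.Global
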